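import Pool.Agent.Helper37.GWA.RSD
import Pool.Agent.Helper26.GWA.RESB
import Pool.Agent.Helper10.GWA.Cyc
import Pool.Agent.Helper67.GWA.TRA2

/-!
# Local transitivity: from residue classes to all classes
-/

namespace GWA

open Polynomial

section TRANS

variable {K : Type} [NormedField K] [Algebra GaussianInt K] [NeZero (2 : K)] [DecidableEq K]
  {π : GaussianInt} {A : Set (FLD K π).Sys}

/-! ### the module -/

theorem trc_aff (d : Kˣ) (P Q : E (d : K)) (α β γ δ κ μ : GaussianInt) :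
    (FLD K π).aff α β γ δ κ μ (⟨d, P, Q⟩ : (FLD K π).Sys) =
      (⟨d, α • P + β • Q + κ • T d.ne_zero, γ • P + δ • Q + μ • T d.ne_zero⟩ :
        (FLD K π).Sys) := rfl

/-- translation of the second point by `T` -/
theorem trc_addT (hA : (FLD K π).LStable A) {d : Kˣ} {P Q : E (d : K)}
    (ht : (⟨d, P, Q⟩ : (FLD K π).Sys) ∈ A) :
    (⟨d, P, Q + T d.ne_zero⟩ : (FLD K π).Sys) ∈ A := by
  have h1 := hA.aff 1 0 0 1 0 1 (by simp) _ ht
  rw [trc_aff] at h1
  simpa using h1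

/-- change of the sign of the first point -/
theorem trc_neg (hA : (FLD K π).LStable A) {d : Kˣ} {P Q : E (d : K)}
    (ht : (⟨d, P, Q⟩ : (FLD K π).Sys) ∈ A) :
    (⟨d, -P, Q⟩ : (FLD K π).Sys) ∈ A := by
  have h1 := hA.aff (-1) 0 0 1 0 0 (by simp) _ ht
  rw [trc_aff] at h1
  simpa using h1

theorem LocHyp.Cl_of_Rc (h : LocHyp K π) (hodd : ¬ π ∣ 2) (hA : (FLD K π).LStable A) {d : Kˣ}
    {P : E (d : K)} (hP : P ∉ nb π (d : K) 0) (hR : Rc A (nx P)) : Cl A d P 0 := by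
  intro P' Q' hP' hQ'
  obtain ⟨h1, h2, h3, h4⟩ := h.res_conv hodd d.ne_zero hP hP'
  rw [sub_zero] at hQ'
  have h5 := hR d P' (Q' + T d.ne_zero) h1 h4 (by rwa [add_sub_cancel_right])
  have h6 := trc_addT hA h5
  rwa [add_assoc, T_add_T, add_zero] at h6

theorem trc_nx_tr {d d' : Kˣ} {c : K} (hc : c ≠ 0)
    (hd : (RingHom.id K) (d : K) = (d' : K) * c ^ 2) (P : E (d : K)) :
    nx (tr (RingHom.id K) hc d'.ne_zero hd P) = nx P := by
  unfold nx
  rw [xc_tr]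
  simp only [RingHom.id_apply] at hd ⊢
  have h1 : c ^ 2 * (d' : K) = (d : K) := by rw [mul_comm]; exact hd.symm
  rw [div_div, h1]

theorem trc_tr_T {d d' : Kˣ} {c : K} (hc : c ≠ 0)
    (hd : (RingHom.id K) (d : K) = (d' : K) * c ^ 2) :
    tr (RingHom.id K) hc d'.ne_zero hd (T d.ne_zero) = T d'.ne_zero := by
  have hne := tr_ne (RingHom.id K) hc d'.ne_zero hd (T_ne d.ne_zero)
  apply pt_ext hne (T_ne d'.ne_zero)
  · rw [xc_eq d'.ne_zero, trc_nx_tr, nx_T, xc_T, mul_one]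
  · rw [yc_tr, yc_T, yc_T]
    simp

theorem LocHyp.Rc_of_Cl (h : LocHyp K π) (hodd : ¬ π ∣ 2) (hA : (FLD K π).LStable A) {d : Kˣ}
    {P : E (d : K)} (hP : P ≠ 0) (h0 : ‖nx P‖ = 1) (h1 : ‖nx P - 1‖ = 1) (h2 : ‖nx P + 1‖ = 1)
    (hC : Cl A d P 0) : Rc A (nx P) := by
  intro d' Q R hQ hQP hR
  set x := nx P with hx
  set y := nx Q with hy
  have hfx : ‖ff x‖ = 1 := by
    have e : ff x = x * (x - 1) * (x + 1) := by unfold ff; ring
    rw [e, norm_mul, norm_mul, h0, h1, h2]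
    norm_num
  have hfx0 : ff x ≠ 0 := by
    intro h'
    rw [h', norm_zero] at hfx
    exact zero_ne_one hfx
  have hy1 : ‖y‖ ≤ 1 := by
    have e : y = (y - x) + x := by ring
    rw [e]
    exact (h.ultra _ _).trans (max_le hQP.le h0.le)
  have hfy : ‖ff y - ff x‖ < 1 := by
    have e : ff y - ff x = (y - x) * (y ^ 2 + y * x + x ^ 2 - 1) := by unfold ff; ring
    rw [e, norm_mul]
    have e2 : ‖y ^ 2 + y * x + x ^ 2 - 1‖ ≤ 1 := by
      refine (h.norm_sub_le _ _).trans (max_le ?_ (by rw [norm_one]))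
      refine (h.ultra _ _).trans (max_le ?_ ?_)
      · refine (h.ultra _ _).trans (max_le ?_ ?_)
        · rw [norm_pow]
          exact pow_le_one₀ (norm_nonneg _) hy1
        · rw [norm_mul, h0, mul_one]
          exact hy1
      · rw [norm_pow, h0, one_pow]
    calc ‖y - x‖ * ‖y ^ 2 + y * x + x ^ 2 - 1‖ ≤ ‖y - x‖ * 1 := by gcongr
      _ < 1 := by rw [mul_one]; exact hQP
  have h4 : ‖(4 : K)‖ = 1 := by
    have e : (4 : K) = 2 * 2 := by norm_num
    rw [e, norm_mul, h.norm_two hodd, mul_one]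
  have hratio : ‖ff y / ff x - 1‖ < ‖(4 : K)‖ := by
    have e : ff y / ff x - 1 = (ff y - ff x) / ff x := by field_simp
    rw [e, norm_div, hfx, div_one, h4]
    exact hfy
  obtain ⟨r, hr, -⟩ := h.sqrt hratio
  have hfy0 : ff y ≠ 0 := by
    intro h'
    rw [h', zero_sub, norm_neg, hfx] at hfy
    exact lt_irrefl _ hfy
  have hr0 : r ≠ 0 := by
    intro h'
    rw [h'] at hr
    have : ff y / ff x = 0 := by rw [← hr]; ring
    exact div_ne_zero hfy0 hfx0 this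
  -- `d` and `d'` differ by a square
  have hdx := sq_ff_nx d.ne_zero P
  have hdy := sq_ff_nx d'.ne_zero Q
  rw [← hx] at hdx
  rw [← hy] at hdy
  have hyP : yc P ≠ 0 := (yc_ne_iff d.ne_zero P).2 hfx0
  have hyQ : yc Q ≠ 0 := (yc_ne_iff d'.ne_zero Q).2 hfy0
  set a := yc P / (d : K) with ha
  set b := yc Q / (d' : K) with hb
  have ha0 : a ≠ 0 := div_ne_zero hyP d.ne_zero
  have hb0 : b ≠ 0 := div_ne_zero hyQ d'.ne_zero
  have hr' : r ^ 2 * ff x = ff y := by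
    rw [hr]
    field_simp
  -- `d = d' c²` with `c = a r / b`
  have hd : (RingHom.id K) (d : K) = (d' : K) * (a * r / b) ^ 2 := by
    simp only [RingHom.id_apply]
    have e1 : (d : K) = a ^ 2 / ff x := by rw [hdx]; field_simp
    have e2 : (d' : K) = b ^ 2 / ff y := by rw [hdy]; field_simp
    rw [e1, e2, ← hr']
    field_simp
  have hc : a * r / b ≠ 0 := div_ne_zero (mul_ne_zero ha0 hr0) hb0
  -- the class of `(P, T)`
  have hPT : Cl A d P (T d.ne_zero) := by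
    intro P' Q' hP' hQ'
    have h7 := trc_addT hA (hC P' (Q' - T d.ne_zero) hP' (by rwa [sub_zero]))
    rwa [sub_add_cancel] at h7
  have hPT' := h.Cl_scale hA hc hd hPT
  rw [trc_tr_T] at hPT'
  set P0 := tr (RingHom.id K) hc d'.ne_zero hd P with hP0
  have hP0ne : P0 ≠ 0 := tr_ne _ _ _ _ hP
  have hnP0 : nx P0 = x := trc_nx_tr hc hd P
  have hx1 : ‖nx P0‖ ≤ 1 := by rw [hnP0, h0]
  have hxy : ‖nx P0 - nx Q‖ < 1 := by
    rw [hnP0, norm_sub_rev]
    exact hQP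
  rcases h.res_diff hodd d'.ne_zero hP0ne hQ hx1 hy1 hxy with h5 | h5
  · have h6 : Q - P0 ∈ nb π (d' : K) 0 := by
      rw [← neg_sub]
      exact neg_mem_nbh h5
    exact hPT' Q R h6 hR
  · have h6 : -Q - P0 ∈ nb π (d' : K) 0 := by
      have e : -Q - P0 = -(P0 + Q) := by abel
      rw [e]
      exact neg_mem_nbh h5
    have h7 := trc_neg hA (hPT' (-Q) R h6 hR)
    rwa [neg_neg] at h7

theorem LocHyp.univ_of_Rc (h : LocHyp K π) (hodd : ¬ π ∣ 2) (hA : (FLD K π).LStable A)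
    (hNN : (FLD K π).NN ⊆ A) (hall : ∀ c : K, ‖c‖ ≤ 1 → Rc A c) : A = Set.univ := by
  rw [Set.eq_univ_iff_forall]
  rintro ⟨d, P, Q⟩
  change Kˣ at d
  change E (d : K) at P
  change E (d : K) at Q
  obtain ⟨g, a, ha, hg, -, -⟩ := h.cyc hodd d
  obtain ⟨α, hα⟩ := hg P
  obtain ⟨β, hβ⟩ := hg Q
  have hCl : ∀ P0 : E (d : K), Cl A d P0 0 := by
    intro P0
    by_cases hP0 : P0 ∈ nb π (d : K) 0
    · intro P' Q' hP' hQ'
      apply hNN
      refine ⟨0, 0, P', ?_, Q', ?_, ?_⟩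
      · change P' ∈ nb π (d : K) 0
        have := h.nb_add d.ne_zero 0 hP' hP0
        rwa [sub_add_cancel] at this
      · change Q' ∈ nb π (d : K) 0
        rwa [sub_zero] at hQ'
      · change (⟨d, P', Q'⟩ : (FLD K π).Sys) = ⟨d, (0 : GaussianInt) • T d.ne_zero + P',
          (0 : GaussianInt) • T d.ne_zero + Q'⟩
        simp
    · have h1 := (h.not_mem_nb_iff d.ne_zero).1 hP0
      exact h.Cl_of_Rc hodd hA hP0 (hall _ h1.2)
  obtain ⟨γ, α', β', hab, hα', hβ'⟩ : ∃ γ α' β' : GaussianInt, IsCoprime α' β' ∧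
      α = α' * γ ∧ β = β' * γ := by
    by_cases h0 : α = 0 ∧ β = 0
    · exact ⟨0, 1, 0, isCoprime_one_left, by simp [h0.1], by simp [h0.2]⟩
    · letI : GCDMonoid GaussianInt := IsBezout.toGCDDomain _
      obtain ⟨α', β', h1, h2, h3⟩ := extract_gcd α β
      refine ⟨gcd α β, α', β', (gcd_isUnit_iff _ _).1 h3, ?_, ?_⟩
      · rw [mul_comm]
        exact h1
      · rw [mul_comm]
        exact h2
  have h1 := (h.Cl_coprime hA hab).1 (hCl (γ • g))
  rw [← mul_smul, ← mul_smul, ← hα', ← hβ'] at h1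
  exact h1 P Q hα hβ

end TRANS

end GWA
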